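import Mathlib

set_option autoImplicit false

namespace Pool.Agent.Lib_helper25.SUN

open Real Filter

theorem log_small : ∃ S : ℝ, ∀ s : ℝ, S ≤ s → Real.log s ≤ s / 20 := by
  have h := (Real.isLittleO_log_id_atTop).bound (show (0 : ℝ) < 1 / 20 by norm_num)
  rw [eventually_atTop] at h
  obtain ⟨S, hS⟩ := h
  refine ⟨max S 1, fun s hs => ?_⟩
  have h1 := hS s (le_trans (le_max_left _ _) hs)
  have h2 : (1 : ℝ) ≤ s := le_trans (le_max_right _ _) hs
  simp only [id, Real.norm_eq_abs] at h1
  rw [abs_of_nonneg (by linarith : (0 : ℝ) ≤ s)] at h1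
  have := le_abs_self (Real.log s)
  linarith

theorem choose_y : ∃ x₀ : ℝ, 16 ≤ x₀ ∧ ∀ x : ℝ, x₀ ≤ x → ∃ y : ℕ, 3 ≤ y ∧
    x < 2 ^ (Nat.primeCounting y) ∧
    ((y : ℝ) - 1) * (x + 1) + 2 ≤ 3 * x * Real.log x * Real.log (Real.log x) := by
  obtain ⟨S, hS⟩ := log_small
  set S' := max S 20 with hS'
  refine ⟨max 16 (Real.exp (Real.exp S')), le_max_left _ _, fun x hx => ?_⟩
  have hx16 : (16 : ℝ) ≤ x := le_trans (le_max_left _ _) hx
  have hxpos : 0 < x := by linarith
  have hxe : Real.exp (Real.exp S') ≤ x := le_trans (le_max_right _ _) hx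
  set t := Real.log x with ht
  have ht1 : Real.exp S' ≤ t := by
    rw [ht, Real.le_log_iff_exp_le hxpos]
    exact hxe
  have htpos : 0 < t := lt_of_lt_of_le (Real.exp_pos _) ht1
  set s := Real.log t with hs
  have hs1 : S' ≤ s := by
    rw [hs, Real.le_log_iff_exp_le htpos]
    exact ht1
  have hs20 : 20 ≤ s := le_trans (le_max_right _ _) hs1
  have hsS : S ≤ s := le_trans (le_max_left _ _) hs1
  have hlogs : Real.log s ≤ s / 20 := hS s hsS
  have hts : s ≤ t := by
    have := Real.add_one_le_exp s
    rw [hs, Real.exp_log htpos] at this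
    rw [hs]
    linarith
  have ht20 : 20 ≤ t := le_trans hs20 hts
  -- t is much larger
  have hspos : 0 < s := by linarith
  set β : ℝ := 13 / 5 with hβ
  set y := ⌊β * t * s⌋₊ with hy
  have hβts : 0 ≤ β * t * s := by positivity
  have hyle : (y : ℝ) ≤ β * t * s := Nat.floor_le hβts
  have hylt : β * t * s < (y : ℝ) + 1 := Nat.lt_floor_add_one _
  have hts400 : (400 : ℝ) ≤ t * s := by nlinarith
  have hybig : (1000 : ℝ) ≤ (y : ℝ) := by
    have : β * t * s = β * (t * s) := by ring
    rw [this] at hylt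
    rw [hβ] at hylt
    nlinarith
  have hy3 : 3 ≤ y := by
    have : (3 : ℝ) ≤ (y : ℝ) := by linarith
    exact_mod_cast this
  have hypos : (0 : ℝ) < y := by linarith
  have hl2a : 0.6931 < Real.log 2 := by
    have := Real.log_two_gt_d9
    linarith
  have hl2b : Real.log 2 < 0.6932 := by
    have := Real.log_two_lt_d9
    linarith
  -- log y
  have hlogy : Real.log y ≤ 1.1 * s := by
    have h1 : Real.log y ≤ Real.log (β * t * s) := Real.log_le_log hypos hyle
    have h2 : Real.log (β * t * s) = Real.log β + Real.log t + Real.log s := by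
      rw [Real.log_mul (by positivity) hspos.ne', Real.log_mul (by norm_num) htpos.ne']
    have h3 : Real.log β ≤ 1 := by
      rw [hβ, Real.log_le_iff_le_exp (by norm_num)]
      have := Real.exp_one_gt_d9
      linarith
    rw [h2] at h1
    rw [← hs] at h1
    linarith
  have hlogy1 : Real.log ((y : ℝ) + 1) ≤ 1.2 * s := by
    have h1 : (y : ℝ) + 1 ≤ 2 * y := by linarith
    have h2 : Real.log ((y : ℝ) + 1) ≤ Real.log (2 * y) := Real.log_le_log (by linarith) h1
    rw [Real.log_mul (by norm_num) hypos.ne'] at h2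
    linarith
  have hlogypos : 0 < Real.log y := Real.log_pos (by linarith)
  refine ⟨y, hy3, ?_, ?_⟩
  · have h1 := Chebyshev.pi_ge y
    rw [div_le_iff₀ hlogypos] at h1
    -- (y log 2 - log (y+1)) ≤ π(y) log y
    have h2 : t < (Nat.primeCounting y : ℝ) * Real.log 2 := by
      by_contra hcon
      push Not at hcon
      have h3 : (Nat.primeCounting y : ℝ) * Real.log 2 * Real.log y ≤ t * Real.log y :=
        mul_le_mul_of_nonneg_right hcon hlogypos.le
      have h4 : ((y : ℝ) * Real.log 2 - Real.log ((y : ℝ) + 1)) * Real.log 2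
          ≤ (Nat.primeCounting y : ℝ) * Real.log y * Real.log 2 :=
        mul_le_mul_of_nonneg_right h1 (by linarith)
      have h5 : t * Real.log y ≤ t * (1.1 * s) := mul_le_mul_of_nonneg_left hlogy htpos.le
      have h6 : (β * t * s - 1) * Real.log 2 * Real.log 2 ≤ (y : ℝ) * Real.log 2 * Real.log 2 := by
        have : β * t * s - 1 ≤ (y : ℝ) := by linarith
        have hp : 0 < Real.log 2 := by linarith
        nlinarith [mul_pos hp hp]
      have h7 : Real.log ((y : ℝ) + 1) * Real.log 2 ≤ 1.2 * s * Real.log 2 :=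
        mul_le_mul_of_nonneg_right hlogy1 (by linarith)
      have h8 : (0.48 : ℝ) ≤ Real.log 2 * Real.log 2 := by nlinarith
      have h9 : Real.log 2 * Real.log 2 ≤ 0.5 := by nlinarith
      have h10 : β * (t * s) * 0.48 ≤ β * (t * s) * (Real.log 2 * Real.log 2) := by
        apply mul_le_mul_of_nonneg_left h8
        positivity
      have h11 : (β * t * s - 1) * Real.log 2 * Real.log 2
          = β * (t * s) * (Real.log 2 * Real.log 2) - Real.log 2 * Real.log 2 := by ring
      have h12 : 1.2 * s * Real.log 2 ≤ s := by nlinarith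
      have h13 : 20 * s ≤ t * s := mul_le_mul_of_nonneg_right ht20 hspos.le
      rw [hβ] at h10
      have h14 : ((y : ℝ) * Real.log 2 - Real.log ((y : ℝ) + 1)) * Real.log 2
          = (y : ℝ) * Real.log 2 * Real.log 2 - Real.log ((y : ℝ) + 1) * Real.log 2 := by ring
      have h15 : (Nat.primeCounting y : ℝ) * Real.log y * Real.log 2
          = (Nat.primeCounting y : ℝ) * Real.log 2 * Real.log y := by ring
      have h16 : t * (1.1 * s) = 1.1 * (t * s) := by ring
      rw [h14] at h4
      rw [h15] at h4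
      rw [h16] at h5
      rw [h11, hβ] at h6
      linarith
    have h3 : Real.log x < Real.log ((2 : ℝ) ^ (Nat.primeCounting y)) := by
      rw [Real.log_pow]
      exact h2
    exact (Real.log_lt_log_iff hxpos (by positivity)).mp h3
  · have h1 : ((y : ℝ) - 1) * (x + 1) ≤ β * t * s * (x + 1) :=
      mul_le_mul_of_nonneg_right (by linarith) (by linarith)
    have h2 : β * t * s * (x + 1) = β * (t * s) * x + β * (t * s) := by ring
    have h3 : 3 * x * t * s = 3 * (t * s) * x := by ring
    rw [h3]
    rw [hβ] at h1 h2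
    have h4 : (t * s) * 16 ≤ (t * s) * x := mul_le_mul_of_nonneg_left hx16 (by linarith)
    nlinarith

end Pool.Agent.Lib_helper25.SUN
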