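import Pool.Agent.Lib_helper25.SUN.Exist

set_option autoImplicit false

namespace Pool.Agent.Lib_helper25.SUN

open Finset Matrix

section Corner

variable {N : ℕ}

theorem det_J : (fromBlocks (0 : Matrix (Fin N) (Fin N) ℤ) (1 : Matrix (Fin N) (Fin N) ℤ)
    (-1 : Matrix (Fin N) (Fin N) ℤ) (0 : Matrix (Fin N) (Fin N) ℤ)).det = 1 := by
  have h : fromBlocks (0 : Matrix (Fin N) (Fin N) ℤ) (1 : Matrix (Fin N) (Fin N) ℤ)
      (-1 : Matrix (Fin N) (Fin N) ℤ) (0 : Matrix (Fin N) (Fin N) ℤ)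
      = fromBlocks (1 : Matrix (Fin N) (Fin N) ℤ) (1 : Matrix (Fin N) (Fin N) ℤ) 0
          (1 : Matrix (Fin N) (Fin N) ℤ)
        * fromBlocks (1 : Matrix (Fin N) (Fin N) ℤ) 0 (-1) (1 : Matrix (Fin N) (Fin N) ℤ)
        * fromBlocks (1 : Matrix (Fin N) (Fin N) ℤ) (1 : Matrix (Fin N) (Fin N) ℤ) 0
          (1 : Matrix (Fin N) (Fin N) ℤ) := by
    rw [fromBlocks_multiply, fromBlocks_multiply]
    simp
  rw [h, det_mul, det_mul, det_fromBlocks_zero₂₁, det_fromBlocks_zero₁₂]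
  simp

theorem det_corner (A B C : Matrix (Fin N) (Fin N) ℤ) :
    (fromBlocks A B C 0).det = (-1) ^ N * (B.det * C.det) := by
  have h : (fromBlocks A B C 0) * (fromBlocks (0 : Matrix (Fin N) (Fin N) ℤ)
      (1 : Matrix (Fin N) (Fin N) ℤ) (-1 : Matrix (Fin N) (Fin N) ℤ)
      (0 : Matrix (Fin N) (Fin N) ℤ))
      = fromBlocks (-B) A 0 C := by
    rw [fromBlocks_multiply]
    simp
  have h2 := congrArg Matrix.det h
  rw [det_mul, det_J, mul_one, det_fromBlocks_zero₂₁, det_neg, Fintype.card_fin] at h2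
  rw [h2]
  ring

theorem det_corner' (B C D : Matrix (Fin N) (Fin N) ℤ) :
    (fromBlocks 0 B C D).det = (-1) ^ N * (B.det * C.det) := by
  have h : (fromBlocks (0 : Matrix (Fin N) (Fin N) ℤ)
      (1 : Matrix (Fin N) (Fin N) ℤ) (-1 : Matrix (Fin N) (Fin N) ℤ)
      (0 : Matrix (Fin N) (Fin N) ℤ)) * (fromBlocks 0 B C D)
      = fromBlocks C D 0 (-B) := by
    rw [fromBlocks_multiply]
    simp
  have h2 := congrArg Matrix.det h
  rw [det_mul, det_J, one_mul, det_fromBlocks_zero₂₁, det_neg, Fintype.card_fin] at h2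
  rw [h2]
  ring

end Corner

/-- The matrix of the problem; row `i : Fin n` stands for the integer `i + 1`. -/
def primeMat (m n : ℕ) : Matrix (Fin n) (Fin n) ℤ :=
  Matrix.of fun i j => if ((i.val + 1) ^ (2 ^ m) + (j.val + 1) ^ (2 ^ m)).Prime then 1 else 0

/-- The off-diagonal parity block, rows odd `≥ 1 + 2 s`, columns even. -/
def blk (m s N : ℕ) : Matrix (Fin N) (Fin N) ℤ :=
  Matrix.of fun a b =>
    if ((2 * a.val + 1 + 2 * s) ^ (2 ^ m) + (2 * b.val + 2) ^ (2 ^ m)).Prime then 1 else 0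

theorem even_even (m a b : ℕ) : ¬ ((2 * a + 1 + 1) ^ (2 ^ m) + (2 * b + 1 + 1) ^ (2 ^ m)).Prime := by
  intro h
  have hk : 2 ^ m ≠ 0 := by positivity
  have h1 : 2 ∣ (2 * a + 1 + 1) ^ (2 ^ m) := dvd_pow ⟨a + 1, by ring⟩ hk
  have h2 : 2 ∣ (2 * b + 1 + 1) ^ (2 ^ m) := dvd_pow ⟨b + 1, by ring⟩ hk
  have h3 : 2 ≤ (2 * a + 1 + 1) ^ (2 ^ m) := Nat.le_of_dvd (by positivity) h1
  have h4 : 2 ≤ (2 * b + 1 + 1) ^ (2 ^ m) := Nat.le_of_dvd (by positivity) h2
  rcases h.eq_two_or_odd with h5 | h5 <;> omega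

theorem odd_odd (m a b : ℕ) (hab : 1 ≤ a + b) :
    ¬ ((2 * a + 1) ^ (2 ^ m) + (2 * b + 1) ^ (2 ^ m)).Prime := by
  intro h
  have hk : 2 ^ m ≠ 0 := by positivity
  have h1 : Odd ((2 * a + 1) ^ (2 ^ m)) := Odd.pow ⟨a, rfl⟩
  have h2 : Odd ((2 * b + 1) ^ (2 ^ m)) := Odd.pow ⟨b, rfl⟩
  have h3 : 2 * a + 1 ≤ (2 * a + 1) ^ (2 ^ m) := Nat.le_self_pow hk _
  have h4 : 2 * b + 1 ≤ (2 * b + 1) ^ (2 ^ m) := Nat.le_self_pow hk _
  obtain ⟨u, hu⟩ := h1
  obtain ⟨v, hv⟩ := h2
  rcases h.eq_two_or_odd with h5 | h5 <;> omega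

theorem det_even (m N : ℕ) : (primeMat m (2 * N)).det = (-1) ^ N * (blk m 0 N).det ^ 2 := by
  set f : Fin N ⊕ Fin N → Fin (2 * N) := Sum.elim
    (fun a => ⟨2 * a.val, by have := a.isLt; omega⟩)
    (fun b => ⟨2 * b.val + 1, by have := b.isLt; omega⟩) with hf
  have hinj : Function.Injective f := by
    rintro (a | a) (b | b) h
    · have h1 := congrArg Fin.val h
      change 2 * a.val = 2 * b.val at h1
      exact congrArg Sum.inl (Fin.ext (by omega))
    · have h1 := congrArg Fin.val h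
      change 2 * a.val = 2 * b.val + 1 at h1
      omega
    · have h1 := congrArg Fin.val h
      change 2 * a.val + 1 = 2 * b.val at h1
      omega
    · have h1 := congrArg Fin.val h
      change 2 * a.val + 1 = 2 * b.val + 1 at h1
      exact congrArg Sum.inr (Fin.ext (by omega))
  have hbij : Function.Bijective f :=
    (Fintype.bijective_iff_injective_and_card f).mpr ⟨hinj, by simp; ring⟩
  rw [← Matrix.det_submatrix_equiv_self (Equiv.ofBijective f hbij)]
  have hmat : (primeMat m (2 * N)).submatrix (Equiv.ofBijective f hbij) (Equiv.ofBijective f hbij)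
      = fromBlocks (Matrix.of fun a b : Fin N =>
          if ((2 * a.val + 1) ^ (2 ^ m) + (2 * b.val + 1) ^ (2 ^ m)).Prime then (1 : ℤ) else 0)
        (blk m 0 N) (blk m 0 N)ᵀ 0 := by
    ext x y
    rcases x with a | a <;> rcases y with b | b
    · rfl
    · rfl
    · change (if ((2 * a.val + 1 + 1) ^ (2 ^ m) + (2 * b.val + 1) ^ (2 ^ m)).Prime then (1 : ℤ) else 0)
        = (if ((2 * b.val + 1 + 2 * 0) ^ (2 ^ m) + (2 * a.val + 2) ^ (2 ^ m)).Prime then 1 else 0)
      have e : (2 * a.val + 1 + 1) ^ (2 ^ m) + (2 * b.val + 1) ^ (2 ^ m)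
          = (2 * b.val + 1 + 2 * 0) ^ (2 ^ m) + (2 * a.val + 2) ^ (2 ^ m) := by
        rw [Nat.mul_zero, Nat.add_zero]
        exact Nat.add_comm _ _
      rw [e]
    · change (if ((2 * a.val + 1 + 1) ^ (2 ^ m) + (2 * b.val + 1 + 1) ^ (2 ^ m)).Prime
        then (1 : ℤ) else 0) = 0
      exact if_neg (even_even m _ _)
  rw [hmat, det_corner, det_transpose, sq]

theorem det_odd (m N : ℕ) : (primeMat m (2 * N + 1)).det = (-1) ^ N * (blk m 1 N).det ^ 2 := by
  set f : Fin 1 ⊕ (Fin N ⊕ Fin N) → Fin (2 * N + 1) := Sum.elim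
    (fun _ => ⟨0, by omega⟩) (Sum.elim
    (fun a => ⟨2 * a.val + 2, by have := a.isLt; omega⟩)
    (fun b => ⟨2 * b.val + 1, by have := b.isLt; omega⟩)) with hf
  have hinj : Function.Injective f := by
    rintro (a | a | a) (b | b | b) h
    · exact congrArg Sum.inl (Subsingleton.elim _ _)
    · have h1 := congrArg Fin.val h
      change 0 = 2 * b.val + 2 at h1
      omega
    · have h1 := congrArg Fin.val h
      change 0 = 2 * b.val + 1 at h1
      omega
    · have h1 := congrArg Fin.val h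
      change 2 * a.val + 2 = 0 at h1
      omega
    · have h1 := congrArg Fin.val h
      change 2 * a.val + 2 = 2 * b.val + 2 at h1
      exact congrArg Sum.inr (congrArg Sum.inl (Fin.ext (by omega)))
    · have h1 := congrArg Fin.val h
      change 2 * a.val + 2 = 2 * b.val + 1 at h1
      omega
    · have h1 := congrArg Fin.val h
      change 2 * a.val + 1 = 0 at h1
      omega
    · have h1 := congrArg Fin.val h
      change 2 * a.val + 1 = 2 * b.val + 2 at h1
      omega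
    · have h1 := congrArg Fin.val h
      change 2 * a.val + 1 = 2 * b.val + 1 at h1
      exact congrArg Sum.inr (congrArg Sum.inr (Fin.ext (by omega)))
  have hbij : Function.Bijective f :=
    (Fintype.bijective_iff_injective_and_card f).mpr ⟨hinj, by simp; ring⟩
  rw [← Matrix.det_submatrix_equiv_self (Equiv.ofBijective f hbij)]
  set M := (primeMat m (2 * N + 1)).submatrix (Equiv.ofBijective f hbij)
    (Equiv.ofBijective f hbij) with hM
  have h11 : M.toBlocks₁₁ = 1 := by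
    ext a b
    change (if ((0 + 1) ^ (2 ^ m) + (0 + 1) ^ (2 ^ m)).Prime then (1 : ℤ) else 0) = _
    have e : ((0 + 1) ^ (2 ^ m) + (0 + 1) ^ (2 ^ m)).Prime := by
      simp only [zero_add, one_pow]
      exact Nat.prime_two
    rw [if_pos e, Subsingleton.elim a b, Matrix.one_apply_eq]
  have hr0 : ∀ (i : Fin 1) (a : Fin N), M.toBlocks₁₂ i (Sum.inl a) = 0 := by
    intro i a
    change (if ((0 + 1) ^ (2 ^ m) + (2 * a.val + 2 + 1) ^ (2 ^ m)).Prime then (1 : ℤ) else 0) = 0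
    refine if_neg ?_
    have := odd_odd m 0 (a.val + 1) (by omega)
    have e : 2 * (a.val + 1) + 1 = 2 * a.val + 2 + 1 := by ring
    rw [e] at this
    exact this
  have hc0 : ∀ (i : Fin 1) (a : Fin N), M.toBlocks₂₁ (Sum.inl a) i = 0 := by
    intro i a
    change (if ((2 * a.val + 2 + 1) ^ (2 ^ m) + (0 + 1) ^ (2 ^ m)).Prime then (1 : ℤ) else 0) = 0
    refine if_neg ?_
    have := odd_odd m (a.val + 1) 0 (by omega)
    have e : 2 * (a.val + 1) + 1 = 2 * a.val + 2 + 1 := by ring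
    rw [e] at this
    exact this
  rw [← Matrix.fromBlocks_toBlocks M, h11, det_fromBlocks_one₁₁]
  set D := M.toBlocks₂₂ - M.toBlocks₂₁ * M.toBlocks₁₂ with hD
  have hD11 : D.toBlocks₁₁ = 0 := by
    ext a b
    change M.toBlocks₂₂ (Sum.inl a) (Sum.inl b) - (M.toBlocks₂₁ * M.toBlocks₁₂) (Sum.inl a) (Sum.inl b)
      = 0
    rw [Matrix.mul_apply, Finset.sum_eq_zero (fun i _ => by rw [hc0, zero_mul]), sub_zero]
    change (if ((2 * a.val + 2 + 1) ^ (2 ^ m) + (2 * b.val + 2 + 1) ^ (2 ^ m)).Prime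
      then (1 : ℤ) else 0) = 0
    refine if_neg ?_
    have := odd_odd m (a.val + 1) (b.val + 1) (by omega)
    have e : ∀ z : ℕ, 2 * (z + 1) + 1 = 2 * z + 2 + 1 := fun z => by ring
    rw [e, e] at this
    exact this
  have hD12 : D.toBlocks₁₂ = blk m 1 N := by
    ext a b
    change M.toBlocks₂₂ (Sum.inl a) (Sum.inr b) - (M.toBlocks₂₁ * M.toBlocks₁₂) (Sum.inl a) (Sum.inr b)
      = _
    rw [Matrix.mul_apply, Finset.sum_eq_zero (fun i _ => by rw [hc0, zero_mul]), sub_zero]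
    change (if ((2 * a.val + 2 + 1) ^ (2 ^ m) + (2 * b.val + 1 + 1) ^ (2 ^ m)).Prime
      then (1 : ℤ) else 0) = (if ((2 * a.val + 1 + 2 * 1) ^ (2 ^ m)
        + (2 * b.val + 2) ^ (2 ^ m)).Prime then (1 : ℤ) else 0)
    have e : 2 * a.val + 2 + 1 = 2 * a.val + 1 + 2 * 1 := by ring
    rw [e]
  have hD21 : D.toBlocks₂₁ = (blk m 1 N)ᵀ := by
    ext a b
    change M.toBlocks₂₂ (Sum.inr a) (Sum.inl b) - (M.toBlocks₂₁ * M.toBlocks₁₂) (Sum.inr a) (Sum.inl b)
      = _
    rw [Matrix.mul_apply, Finset.sum_eq_zero (fun i _ => by rw [hr0, mul_zero]), sub_zero]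
    change (if ((2 * a.val + 1 + 1) ^ (2 ^ m) + (2 * b.val + 2 + 1) ^ (2 ^ m)).Prime
      then (1 : ℤ) else 0) = (if ((2 * b.val + 1 + 2 * 1) ^ (2 ^ m)
        + (2 * a.val + 2) ^ (2 ^ m)).Prime then (1 : ℤ) else 0)
    have e : (2 * a.val + 1 + 1) ^ (2 ^ m) + (2 * b.val + 2 + 1) ^ (2 ^ m)
        = (2 * b.val + 1 + 2 * 1) ^ (2 ^ m) + (2 * a.val + 2) ^ (2 ^ m) := by
      have e1 : 2 * b.val + 2 + 1 = 2 * b.val + 1 + 2 * 1 := by ring
      rw [e1]
      exact Nat.add_comm _ _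
    rw [e]
  rw [← Matrix.fromBlocks_toBlocks D, hD11, hD12, hD21, det_corner', det_transpose, sq]

/-- Reduction of the block modulo a prime is a Hankel matrix (`m = 0`). -/
theorem blk_cast (k : Type*) [Field k] (s N : ℕ) :
    (((blk 0 s N).det : ℤ) : k) = (hank (ind k (3 + 2 * s)) N).det := by
  have h := (Int.castRingHom k).map_det (blk 0 s N)
  rw [eq_intCast] at h
  rw [h]
  congr 1
  ext a b
  simp only [RingHom.mapMatrix_apply, Matrix.map_apply, blk, Matrix.of_apply, hank, ind, pow_zero,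
    pow_one]
  have e : 2 * a.val + 1 + 2 * s + (2 * b.val + 2) = 2 * (a.val + b.val) + (3 + 2 * s) := by ring
  rw [e]
  split_ifs <;> simp

end Pool.Agent.Lib_helper25.SUN
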