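import Mathlib

set_option autoImplicit false

namespace Pool.Agent.Lib_helper25.SUN

open Finset

section Abstract

variable {k V : Type*} [Field k] [AddCommGroup V] [Module k V] [FiniteDimensional k V]

omit [FiniteDimensional k V] in
theorem iter (T : Module.End k V) (w : ℕ → V) (hw : ∀ i, w (i + 1) = T (w i)) (m i : ℕ) :
    w (i + m) = (T ^ m) (w i) := by
  induction m with
  | zero => simp
  | succ m ih =>
    rw [← Nat.add_assoc, hw, ih, pow_succ']
    rfl

theorem dec_zero (T : Module.End k V) (w : ℕ → V) (hw : ∀ i, w (i + 1) = T (w i))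
    (f : V →ₗ[k] k) (i0 p : ℕ) (hz : ∀ t < Module.finrank k V, f (w (i0 + p * t)) = 0) :
    ∀ t, f (w (i0 + p * t)) = 0 := by
  set d := Module.finrank k V with hd
  set S : Module.End k V := T ^ p with hS
  have hch : Polynomial.aeval S S.charpoly = 0 := LinearMap.aeval_self_charpoly S
  have hdeg : S.charpoly.natDegree = d := LinearMap.charpoly_natDegree S
  have hmon : S.charpoly.Monic := LinearMap.charpoly_monic S
  have hlead : S.charpoly.coeff d = 1 := by
    rw [← hdeg]
    exact hmon.coeff_natDegree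
  have hrel : ∀ u : V, ∑ j ∈ range (d + 1), S.charpoly.coeff j • (S ^ j) u = 0 := by
    intro u
    rw [Polynomial.aeval_eq_sum_range, hdeg] at hch
    have h1 := congrArg (fun g : Module.End k V => g u) hch
    simp only [LinearMap.zero_apply] at h1
    rw [← h1, LinearMap.sum_apply]
    rfl
  have hstep : ∀ j s, w (i0 + p * (s + j)) = (S ^ j) (w (i0 + p * s)) := by
    intro j s
    rw [hS, ← pow_mul, ← iter T w hw]
    congr 1
    ring
  intro t
  induction t using Nat.strong_induction_on with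
  | _ t ih =>
    by_cases ht : t < d
    · exact hz t ht
    · obtain ⟨s, rfl⟩ : ∃ s, t = s + d := ⟨t - d, by omega⟩
      have h1 := congrArg f (hrel (w (i0 + p * s)))
      rw [map_sum, map_zero, Finset.sum_range_succ, hlead, one_smul, ← hstep] at h1
      rw [Finset.sum_eq_zero, zero_add] at h1
      · exact h1
      · intro j hj
        have hj' := mem_range.mp hj
        rw [map_smul, ← hstep, ih (s + j) (by omega), smul_zero]

end Abstract

/-- State vector. -/
def st {k : Type*} (K : ℕ) (b : ℕ → k) (i : ℕ) : Fin K → k := fun j => b (i + j.val)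

/-- Companion map. -/
def comp {k : Type*} [Field k] (K : ℕ) (q : ℕ → k) : Module.End k (Fin K → k) :=
  (⟨K, fun j : Fin K => q j.val⟩ : LinearRecurrence k).tupleSucc

theorem st_succ {k : Type*} [Field k] (K : ℕ) (q b : ℕ → k)
    (hrec : ∀ i, b (i + K) = ∑ j ∈ range K, q j * b (i + j)) (i : ℕ) :
    st K b (i + 1) = comp K q (st K b i) := by
  funext j
  change b (i + 1 + j.val) = (if h : (j : ℕ) + 1 < K then st K b i ⟨j.val + 1, h⟩
    else ∑ l : Fin K, q l.val * st K b i l)
  by_cases h : (j : ℕ) + 1 < K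
  · rw [dif_pos h]
    change _ = b (i + (j.val + 1))
    congr 1
    ring
  · rw [dif_neg h]
    have e : i + 1 + j.val = i + K := by
      have := j.isLt
      omega
    rw [e, hrec, Finset.sum_range]
    rfl

theorem two_pow_le {k : Type*} [Field k] (K : ℕ) (hK : 0 < K) (q b : ℕ → k)
    (hrec : ∀ i, b (i + K) = ∑ j ∈ range K, q j * b (i + j))
    (hne : ∃ i, K ≤ i ∧ b i ≠ 0) (c : ℕ) (hc : Odd c) (P : Finset ℕ)
    (hP : ∀ p ∈ P, p.Prime ∧ p ≠ 2)
    (hz : ∀ p ∈ P, ∀ i, p ∣ 2 * i + c → p < 2 * i + c → b i = 0) :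
    2 ^ P.card ≤ K := by
  classical
  set T := comp K q with hT
  have hw : ∀ i, st K b (i + 1) = T (st K b i) := st_succ K q b hrec
  have hfin : Module.finrank k (Fin K → k) = K := by simp
  -- not eventually zero
  have hinf : ∀ B, ∃ i, B ≤ i ∧ b i ≠ 0 := by
    intro B
    by_contra hcon
    push Not at hcon
    have hB : st K b (0 + B) = 0 := by
      funext j
      exact hcon _ (by omega)
    rw [iter T _ hw] at hB
    have h1 : st K b 0 ∈ LinearMap.ker (T ^ B) := hB
    have h2 := Module.End.ker_pow_le_ker_pow_finrank T B h1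
    rw [hfin] at h2
    have h3 : st K b (0 + K) = 0 := by
      rw [iter T _ hw]
      exact h2
    obtain ⟨i, hi, hbi⟩ := hne
    apply hbi
    have h4 : st K b (0 + K + (i - K)) = 0 := by
      rw [iter T _ hw, h3, map_zero]
    have h5 := congrFun h4 ⟨0, hK⟩
    have e : 0 + K + (i - K) + 0 = i := by omega
    change b (0 + K + (i - K) + 0) = 0 at h5
    rwa [e] at h5
  set Q := ∏ p ∈ P, p with hQ
  have hQpos : 0 < Q := Finset.prod_pos fun p hp => (hP p hp).1.pos
  obtain ⟨n0, hn0, hbn0⟩ := hinf (2 * Q)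
  -- the shifts
  have hx : ∀ S : Finset ℕ, S ⊆ P → ∃ x, x < Q ∧ (∀ p ∈ S, p ∣ x) ∧
      (∀ p ∈ P \ S, p ∣ 2 * (n0 - x) + c) := by
    intro S hS
    set A := ∏ p ∈ S, p with hA
    set B := ∏ p ∈ P \ S, p with hB
    have hAB : A * B = Q := by
      rw [hA, hB, hQ, mul_comm]
      exact Finset.prod_sdiff hS
    have hcop : Nat.Coprime A B := by
      apply Nat.Coprime.prod_left
      intro p hp
      apply Nat.Coprime.prod_right
      intro p' hp'
      have h1 := hP p (hS hp)
      have h2 := hP p' (Finset.mem_sdiff.mp hp').1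
      refine (Nat.coprime_primes h1.1 h2.1).mpr ?_
      rintro rfl
      exact (Finset.mem_sdiff.mp hp').2 hp
    have hBodd : Odd B := by
      rw [hB]
      refine Finset.prod_induction _ Odd (fun a b ha hb => ha.mul hb) odd_one ?_
      intro p hp
      exact (hP p (Finset.mem_sdiff.mp hp).1).1.odd_of_ne_two (hP p (Finset.mem_sdiff.mp hp).1).2
    obtain ⟨e, he⟩ := hBodd
    obtain ⟨d, hd⟩ := hc
    -- 2 * (n0 + d + e + 1) = 2 * n0 + c + B
    set r := n0 + d + e + 1 with hr
    have hApos : 0 < A := by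
      rcases Nat.eq_zero_or_pos A with h | h
      · rw [h, zero_mul] at hAB; omega
      · exact h
    have hBpos : 0 < B := by omega
    obtain ⟨x0, hlt, hx0a, hx0b⟩ : ∃ x0 : ℕ, x0 < A * B ∧ x0 ≡ 0 [MOD A] ∧ x0 ≡ r [MOD B] :=
      ⟨_, Nat.chineseRemainder_lt_mul hcop 0 r hApos.ne' hBpos.ne',
        (Nat.chineseRemainder hcop 0 r).2.1, (Nat.chineseRemainder hcop 0 r).2.2⟩
    refine ⟨x0, by rw [← hAB]; exact hlt, ?_, ?_⟩
    · intro p hp
      have h1 : A ∣ x0 := (Nat.modEq_zero_iff_dvd).mp hx0a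
      exact dvd_trans (Finset.dvd_prod_of_mem _ hp) h1
    · intro p hp
      have h1 : p ∣ B := Finset.dvd_prod_of_mem _ hp
      refine dvd_trans h1 ?_
      have hle : x0 ≤ n0 := by rw [hAB] at hlt; omega
      have h2 : (B : ℤ) ∣ (r : ℤ) - (x0 : ℤ) := (Nat.modEq_iff_dvd).mp hx0b
      have hrZ : (r : ℤ) = n0 + d + e + 1 := by rw [hr]; push_cast; ring
      have heZ : (B : ℤ) = 2 * e + 1 := by rw [he]; push_cast; ring
      have hdZ : (c : ℤ) = 2 * d + 1 := by rw [hd]; push_cast; ring
      have h3 : (B : ℤ) ∣ ((2 * (n0 - x0) + c : ℕ) : ℤ) := by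
        have e1 : ((2 * (n0 - x0) + c : ℕ) : ℤ) = 2 * ((r : ℤ) - (x0 : ℤ)) - (B : ℤ) := by
          push_cast [Nat.cast_sub hle]
          rw [hrZ, heZ, hdZ]
          ring
        rw [e1]
        exact dvd_sub (Dvd.dvd.mul_left h2 2) (dvd_refl _)
      exact_mod_cast h3
  choose! x hxlt hxS hxc using hx
  -- linear independence
  set vv : P.powerset → (Fin K → k) := fun S => st K b (n0 - x S.1) with hvv
  have hval : ∀ S S' : Finset ℕ, S ⊆ P → S' ⊆ P → ¬ S ⊆ S' → b (x S + (n0 - x S')) = 0 := by
    intro S S' hS hS' hnot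
    obtain ⟨p, hpS, hpS'⟩ := Finset.not_subset.mp hnot
    have hpP := hS hpS
    have h1 : p ∣ x S := hxS S hS p hpS
    have h2 : p ∣ 2 * (n0 - x S') + c := hxc S' hS' p (Finset.mem_sdiff.mpr ⟨hpP, hpS'⟩)
    have hple : p ≤ Q := Nat.le_of_dvd hQpos (Finset.dvd_prod_of_mem _ hpP)
    have hlt' := hxlt S' hS'
    apply hz p hpP
    · have e : 2 * (x S + (n0 - x S')) + c = 2 * x S + (2 * (n0 - x S') + c) := by ring
      rw [e]
      exact dvd_add (Dvd.dvd.mul_left h1 2) h2
    · omega
  have hli : LinearIndependent k vv := by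
    rw [Fintype.linearIndependent_iff]
    intro g hg
    by_contra hcon
    push Not at hcon
    obtain ⟨S1, hS1⟩ := hcon
    have hne' : (Finset.univ.filter fun S : P.powerset => g S ≠ 0).Nonempty :=
      ⟨S1, by simp [hS1]⟩
    obtain ⟨S0, hS0mem, hS0max⟩ := Finset.exists_max_image _ (fun S : P.powerset => S.1.card) hne'
    have hS0 : g S0 ≠ 0 := (Finset.mem_filter.mp hS0mem).2
    have hS0P : S0.1 ⊆ P := Finset.mem_powerset.mp S0.2
    have h1 := congrArg (fun v : Fin K → k => ((T ^ (x S0.1)) v) ⟨0, hK⟩) hg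
    simp only [map_sum, map_smul, map_zero, Pi.zero_apply, Finset.sum_apply, Pi.smul_apply,
      smul_eq_mul] at h1
    have hterm : ∀ S : P.powerset, ((T ^ (x S0.1)) (vv S)) ⟨0, hK⟩ = b (x S0.1 + (n0 - x S.1)) := by
      intro S
      rw [hvv]
      simp only
      rw [← iter T _ hw]
      change b (n0 - x S.1 + x S0.1 + 0) = _
      congr 1
      ring
    simp only [hterm] at h1
    rw [Finset.sum_eq_single S0] at h1
    · have e : x S0.1 + (n0 - x S0.1) = n0 := by
        have := hxlt S0.1 hS0P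
        omega
      rw [e] at h1
      rcases mul_eq_zero.mp h1 with h | h
      · exact hS0 h
      · exact hbn0 h
    · intro S _ hSne
      by_cases hsub : S0.1 ⊆ S.1
      · have hcard : S0.1.card < S.1.card := by
          apply Finset.card_lt_card
          refine ⟨hsub, fun h => hSne ?_⟩
          exact Subtype.ext (Finset.Subset.antisymm h hsub)
        have : g S = 0 := by
          by_contra hgS
          have := hS0max S (by simp [hgS])
          omega
        rw [this, zero_mul]
      · rw [hval S0.1 S.1 hS0P (Finset.mem_powerset.mp S.2) hsub, mul_zero]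
    · intro h
      exact absurd (Finset.mem_univ _) h
  have hcard := hli.fintype_card_le_finrank
  rw [hfin, Fintype.card_coe, Finset.card_powerset] at hcard
  exact hcard

end Pool.Agent.Lib_helper25.SUN
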