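import Pool.Agent.Lib_helper25.SUN.Hankel
import Pool.Agent.Lib_helper25.SUN.Rec

set_option autoImplicit false

namespace Pool.Agent.Lib_helper25.SUN

open Finset

/-- Indicator of `2 i + c` prime. -/
def ind (k : Type*) [Zero k] [One k] (c i : ℕ) : k := if (2 * i + c).Prime then 1 else 0

theorem exists_nonzero (k : Type*) [Field k] (c : ℕ) (hc : c = 3 ∨ c = 5) (X M y : ℕ)
    (P : Finset ℕ) (hX : 1 ≤ X) (hP : ∀ p ∈ P, p.Prime ∧ p ≠ 2 ∧ p ≤ y)
    (hcard : X < 2 ^ P.card) (hM : (y - 1) * (2 * X + 1) ≤ 2 * M) :
    ∃ N, X < N ∧ N ≤ M ∧ (hank (ind k c) N).det ≠ 0 := by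
  classical
  by_contra hcon
  push Not at hcon
  set a : ℕ → k := ind k c with ha
  have hc3 : 3 ≤ c := by omega
  have hcodd : Odd c := by rcases hc with h | h <;> subst h <;> decide
  have hcprime : c.Prime := by rcases hc with h | h <;> subst h <;> norm_num
  -- y ≥ 3
  have hPne : P.Nonempty := by
    rw [← Finset.card_pos]
    by_contra h
    have : P.card = 0 := by omega
    rw [this] at hcard
    omega
  have hy3 : 3 ≤ y := by
    obtain ⟨p, hp⟩ := hPne
    have h1 := (hP p hp).1.two_le
    have h2 := (hP p hp).2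
    omega
  set K := Nat.findGreatest (fun K => (hank a K).det ≠ 0) X with hKdef
  have h1det : (hank a 1).det ≠ 0 := by
    rw [Matrix.det_fin_one]
    simp only [hank, Matrix.of_apply, ha, ind]
    have e : 2 * (((0 : Fin 1) : ℕ) + ((0 : Fin 1) : ℕ)) + c = c := by simp
    rw [e, if_pos hcprime]
    exact one_ne_zero
  have hK1 : 1 ≤ K := Nat.le_findGreatest hX h1det
  have hKX : K ≤ X := Nat.findGreatest_le X
  have hKdet : (hank a K).det ≠ 0 := by
    have := Nat.findGreatest_spec (P := fun K => (hank a K).det ≠ 0) hX h1det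
    exact this
  have hzero : ∀ N, K < N → N ≤ M → (hank a N).det = 0 := by
    intro N hN hNM
    by_cases hNX : N ≤ X
    · have := Nat.findGreatest_is_greatest (P := fun K => (hank a K).det ≠ 0) hN hNX
      exact not_not.mp this
    · exact hcon N (by omega) hNM
  obtain ⟨q, hq⟩ := gap a K M hKdet hzero
  have hM2 : 2 * K + 1 ≤ M := by
    have h1 : 2 * (2 * X + 1) ≤ (y - 1) * (2 * X + 1) := Nat.mul_le_mul_right _ (by omega)
    omega
  -- extension
  set E : LinearRecurrence k := ⟨K, fun j : Fin K => q j.val⟩ with hE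
  set b : ℕ → k := E.mkSol (fun j : Fin K => a j.val) with hb
  have hrec : ∀ i, b (i + K) = ∑ j ∈ range K, q j * b (i + j) := by
    intro i
    have h1 := E.is_sol_mkSol (fun j : Fin K => a j.val) i
    rw [Finset.sum_range]
    exact h1
  have hagree : ∀ i, i < M + K → b i = a i := by
    intro i
    induction i using Nat.strong_induction_on with
    | _ i ih =>
      intro hi
      by_cases hiK : i < K
      · exact E.mkSol_eq_init (fun j : Fin K => a j.val) ⟨i, hiK⟩
      · obtain ⟨s, rfl⟩ : ∃ s, i = s + K := ⟨i - K, by omega⟩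
        rw [hrec, hq s (by omega)]
        refine Finset.sum_congr rfl fun j hj => ?_
        have := mem_range.mp hj
        rw [ih (s + j) (by omega) (by omega)]
  have hfin : Module.finrank k (Fin K → k) = K := by simp
  have hres := two_pow_le K (by omega) q b hrec ?_ c hcodd P
    (fun p hp => ⟨(hP p hp).1, (hP p hp).2.1⟩) ?_
  · omega
  · -- a prime beyond K
    obtain ⟨p, hp, hp1, hp2⟩ := Nat.exists_prime_lt_and_le_two_mul (2 * K + c - 1) (by omega)
    have hpodd : p % 2 = 1 := by
      rcases hp.eq_two_or_odd with h | h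
      · omega
      · exact h
    obtain ⟨d, hd⟩ := hcodd
    refine ⟨(p - c) / 2, by omega, ?_⟩
    rw [hagree _ (by omega), ha, ind]
    have e : 2 * ((p - c) / 2) + c = p := by omega
    rw [e, if_pos hp]
    exact one_ne_zero
  · intro p hp i hdvd hlt
    obtain ⟨hpp, hp2, hpy⟩ := hP p hp
    have hpodd : p % 2 = 1 := by
      rcases hpp.eq_two_or_odd with h | h
      · omega
      · exact h
    have hp3 : 3 ≤ p := by
      have := hpp.two_le
      omega
    obtain ⟨d, hd⟩ := hcodd
    obtain ⟨i0, hi0⟩ : ∃ i0, 2 * i0 + c = 3 * p := ⟨(3 * p - c) / 2, by omega⟩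
    have hall := dec_zero (comp K q) (st K b) (st_succ K q b hrec)
      (LinearMap.proj (⟨0, hK1⟩ : Fin K)) i0 p ?_
    · -- i = i0 + p t
      obtain ⟨m, hm⟩ := hdvd
      have hmodd : m % 2 = 1 := by
        rcases Nat.even_or_odd m with h | h
        · exfalso
          obtain ⟨l, hl⟩ := h
          rw [hl, Nat.mul_add] at hm
          omega
        · obtain ⟨l, hl⟩ := h
          omega
      have hm1 : m ≠ 1 := by
        rintro rfl
        omega
      obtain ⟨t, ht⟩ : ∃ t, m = 2 * t + 3 := ⟨(m - 3) / 2, by omega⟩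
      have hit : i = i0 + p * t := by
        have e : p * m = 2 * (p * t) + 3 * p := by rw [ht]; ring
        rw [e] at hm
        omega
      have := hall t
      change b (i0 + p * t + 0) = 0 at this
      rw [hit]
      simpa using this
    · intro t ht
      rw [hfin] at ht
      change b (i0 + p * t + 0) = 0
      rw [Nat.add_zero]
      have hb1 : (p - 1) * (2 * K + 1) ≤ 2 * M := by
        refine le_trans ?_ hM
        exact Nat.mul_le_mul (by omega) (by omega)
      have hb2 : (p - 1) * (2 * K + 1) + (2 * K + 1) = p * (2 * K + 1) := by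
        obtain ⟨p', rfl⟩ : ∃ p', p = p' + 1 := ⟨p - 1, by omega⟩
        rw [Nat.add_sub_cancel]
        ring
      have hb3 : p * t + p ≤ p * K := by
        have : p * (t + 1) ≤ p * K := Nat.mul_le_mul_left _ (by omega)
        calc p * t + p = p * (t + 1) := by ring
          _ ≤ _ := this
      have hb4 : p * (2 * K + 1) = 2 * (p * K) + p := by ring
      rw [hagree _ (by omega), ha, ind]
      have e : 2 * (i0 + p * t) + c = p * (2 * t + 3) := by
        have : p * (2 * t + 3) = 2 * (p * t) + 3 * p := by ring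
        omega
      rw [e, if_neg]
      exact Nat.not_prime_mul (by omega) (by omega)

end Pool.Agent.Lib_helper25.SUN
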