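import Pool.Agent.Lib_helper25.SUN.Det
import Pool.Agent.Lib_helper25.SUN.Asym

set_option autoImplicit false

namespace Pool.Agent.Lib_helper25.SUN

open Finset

theorem final : ∃ x₀ : ℝ, ∀ x : ℝ, x₀ ≤ x → ∀ ℓ : ℕ, ℓ.Prime → ∀ e : ℕ, e < 2 →
    ∃ n : ℕ, n % 2 = e ∧ x < (n : ℝ) ∧
      (n : ℝ) ≤ 3 * x * Real.log x * Real.log (Real.log x) ∧
      ¬ (ℓ : ℤ) ∣ (primeMat 0 n).det := by
  obtain ⟨x₀, hx₀, hmain⟩ := choose_y
  refine ⟨x₀, fun x hx ℓ hℓ e he => ?_⟩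
  obtain ⟨y, hy3, hpow, hbound⟩ := hmain x hx
  have hx16 : (16 : ℝ) ≤ x := le_trans hx₀ hx
  have : Fact ℓ.Prime := ⟨hℓ⟩
  set X := ⌊x / 2⌋₊ with hX
  have hXle : (X : ℝ) ≤ x / 2 := Nat.floor_le (by linarith)
  have hXlt : x / 2 < (X : ℝ) + 1 := Nat.lt_floor_add_one _
  have hX1 : 1 ≤ X := by
    have : (0 : ℝ) < (X : ℝ) := by linarith
    exact_mod_cast this
  set P := (Nat.primesLE y).erase 2 with hP
  have h2mem : 2 ∈ Nat.primesLE y := Nat.mem_primesLE.mpr ⟨by omega, Nat.prime_two⟩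
  have hPcard : P.card + 1 = Nat.primeCounting y := by
    rw [hP, Finset.card_erase_add_one h2mem, Nat.primesLE_card_eq_primeCounting]
  have hPprop : ∀ p ∈ P, p.Prime ∧ p ≠ 2 ∧ p ≤ y := by
    intro p hp
    have h1 := Finset.mem_erase.mp hp
    have h2 := Nat.mem_primesLE.mp h1.2
    exact ⟨h2.2, h1.1, h2.1⟩
  have hcard : X < 2 ^ P.card := by
    have h1 : x < 2 * (2 : ℝ) ^ P.card := by
      rw [← hPcard, pow_succ] at hpow
      linarith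
    have h2 : (X : ℝ) < (2 : ℝ) ^ P.card := by linarith
    exact_mod_cast h2
  set M := ((y - 1) * (2 * X + 1) + 1) / 2 with hM
  have hM1 : (y - 1) * (2 * X + 1) ≤ 2 * M := by omega
  have hM2 : 2 * M ≤ (y - 1) * (2 * X + 1) + 1 := by omega
  have hM3 : (2 * M : ℝ) + 1 ≤ ((y : ℝ) - 1) * (x + 1) + 2 := by
    have h1 : ((2 * M : ℕ) : ℝ) ≤ (((y - 1) * (2 * X + 1) + 1 : ℕ) : ℝ) := by exact_mod_cast hM2
    push_cast [Nat.cast_sub (show 1 ≤ y by omega)] at h1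
    have h2 : (0 : ℝ) ≤ (y : ℝ) - 1 := by
      have : (3 : ℝ) ≤ (y : ℝ) := by exact_mod_cast hy3
      linarith
    have h3 : ((y : ℝ) - 1) * (2 * X + 1) ≤ ((y : ℝ) - 1) * (x + 1) :=
      mul_le_mul_of_nonneg_left (by linarith) h2
    linarith
  have key : ∀ s : ℕ, s < 2 → ∃ N : ℕ, X < N ∧ N ≤ M ∧ ¬ (ℓ : ℤ) ∣ (blk 0 s N).det := by
    intro s hs
    obtain ⟨N, h1, h2, h3⟩ := exists_nonzero (ZMod ℓ) (3 + 2 * s) (by omega) X M y P hX1 hPprop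
      hcard hM1
    refine ⟨N, h1, h2, fun hdvd => h3 ?_⟩
    rw [← blk_cast]
    exact (ZMod.intCast_zmod_eq_zero_iff_dvd _ _).mpr hdvd
  have hprime : Prime (ℓ : ℤ) := Nat.prime_iff_prime_int.mp hℓ
  have hsq : ∀ (N : ℕ) (d : ℤ), ¬ (ℓ : ℤ) ∣ d → ¬ (ℓ : ℤ) ∣ (-1) ^ N * d ^ 2 := by
    intro N d hd hdvd
    rcases hprime.dvd_or_dvd hdvd with h | h
    · have h1 : IsUnit ((-1 : ℤ) ^ N) := (isUnit_one.neg).pow N
      exact hprime.not_isUnit (isUnit_of_dvd_unit h h1)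
    · exact hd (hprime.dvd_of_dvd_pow h)
  obtain rfl | rfl : e = 0 ∨ e = 1 := by omega
  · obtain ⟨N, h1, h2, h3⟩ := key 0 (by omega)
    refine ⟨2 * N, by omega, ?_, ?_, ?_⟩
    · have : (X : ℝ) + 1 ≤ (N : ℝ) := by exact_mod_cast h1
      push_cast
      linarith
    · have : (N : ℝ) ≤ (M : ℝ) := by exact_mod_cast h2
      push_cast
      linarith
    · rw [det_even]
      exact hsq N _ h3
  · obtain ⟨N, h1, h2, h3⟩ := key 1 (by omega)
    refine ⟨2 * N + 1, by omega, ?_, ?_, ?_⟩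
    · have : (X : ℝ) + 1 ≤ (N : ℝ) := by exact_mod_cast h1
      push_cast
      linarith
    · have : (N : ℝ) ≤ (M : ℝ) := by exact_mod_cast h2
      push_cast
      linarith
    · rw [det_odd]
      exact hsq N _ h3

end Pool.Agent.Lib_helper25.SUN
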