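import Mathlib

set_option autoImplicit false

namespace Pool.Agent.Lib_helper25.SUN

open Finset

/-- The Hankel matrix of the sequence `a`. -/
def hank {k : Type*} (a : ℕ → k) (N : ℕ) : Matrix (Fin N) (Fin N) k :=
  Matrix.of fun i j => a (i.val + j.val)

theorem hank_mulVec {k : Type*} [Field k] (a : ℕ → k) (N : ℕ) (v : ℕ → k) (i : Fin N) :
    (Matrix.mulVec (hank a N) (fun j : Fin N => v j.val)) i
      = ∑ j ∈ range N, v j * a (i.val + j) := by
  simp only [Matrix.mulVec, dotProduct, hank, Matrix.of_apply]
  rw [Finset.sum_range]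
  exact Finset.sum_congr rfl fun j _ => mul_comm _ _

theorem gap {k : Type*} [Field k] (a : ℕ → k) (K M : ℕ) (hK : (hank a K).det ≠ 0)
    (h0 : ∀ N, K < N → N ≤ M → (hank a N).det = 0) :
    ∃ q : ℕ → k, ∀ i < M, a (i + K) = ∑ j ∈ range K, q j * a (i + j) := by
  classical
  set u : Fin K → k := Matrix.mulVec (hank a K)⁻¹ (fun i => a (i.val + K)) with hu
  have hsol : Matrix.mulVec (hank a K) u = fun i => a (i.val + K) := by
    rw [hu, Matrix.mulVec_mulVec, Matrix.mul_nonsing_inv _ (Ne.isUnit hK), Matrix.one_mulVec]
  set q : ℕ → k := fun j => if h : j < K then u ⟨j, h⟩ else 0 with hq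
  have hqu : (fun j : Fin K => q j.val) = u := by
    funext j
    simp [hq]
  refine ⟨q, ?_⟩
  set r : ℕ → k := fun i => a (i + K) - ∑ j ∈ range K, q j * a (i + j) with hr
  suffices hmain : ∀ i < M, r i = 0 by
    intro i hi
    have := hmain i hi
    simp only [hr] at this
    exact sub_eq_zero.mp this
  have hrK : ∀ i < K, r i = 0 := by
    intro i hi
    have h1 := congrFun hsol ⟨i, hi⟩
    rw [← hqu, hank_mulVec] at h1
    simp only [hr]
    rw [h1]
    exact sub_self _
  by_contra hcon
  push Not at hcon
  have hex : ∃ i, i < M ∧ r i ≠ 0 := by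
    obtain ⟨i, hi, hi'⟩ := hcon
    exact ⟨i, hi, hi'⟩
  set i0 := Nat.find hex with hi0
  obtain ⟨hi0M, hi0r⟩ := Nat.find_spec hex
  have hmin : ∀ i < i0, r i = 0 := by
    intro i hi
    by_contra hne
    exact Nat.find_min hex hi ⟨lt_trans hi hi0M, hne⟩
  have hKi0 : K ≤ i0 := by
    by_contra hlt
    exact hi0r (hrK i0 (by omega))
  obtain ⟨t, ht⟩ : ∃ t, i0 = K + t := ⟨i0 - K, by omega⟩
  have hdet := h0 (K + t + 1) (by omega) (by omega)
  obtain ⟨v0, hv0, hv0'⟩ := Matrix.exists_mulVec_eq_zero_iff.mpr hdet
  set v : ℕ → k := fun j => if h : j < K + t + 1 then v0 ⟨j, h⟩ else 0 with hv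
  have hvv : (fun j : Fin (K + t + 1) => v j.val) = v0 := by
    funext j
    simp only [hv]
    rw [dif_pos j.isLt]
  have hrow : ∀ i < K + t + 1, ∑ j ∈ range (K + t + 1), v j * a (i + j) = 0 := by
    intro i hi
    have h1 := congrFun hv0' ⟨i, hi⟩
    rw [← hvv, hank_mulVec] at h1
    exact h1
  have hrr : ∀ s ≤ t, ∑ j ∈ range (K + t + 1), v j * r (s + j) = 0 := by
    intro s hs
    have h1 := hrow (s + K) (by omega)
    have h2 : ∀ l ∈ range K, q l * ∑ j ∈ range (K + t + 1), v j * a (s + l + j) = 0 := by
      intro l hl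
      rw [hrow (s + l) (by have := mem_range.mp hl; omega), mul_zero]
    calc ∑ j ∈ range (K + t + 1), v j * r (s + j)
        = ∑ j ∈ range (K + t + 1), v j * a (s + K + j)
          - ∑ j ∈ range (K + t + 1), ∑ l ∈ range K, q l * (v j * a (s + l + j)) := by
          rw [← Finset.sum_sub_distrib]
          refine Finset.sum_congr rfl fun j _ => ?_
          simp only [hr]
          rw [mul_sub, Finset.mul_sum]
          have e1 : s + j + K = s + K + j := by ring
          rw [e1]
          refine congrArg₂ _ rfl (Finset.sum_congr rfl fun l _ => ?_)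
          have e2 : s + j + l = s + l + j := by ring
          rw [e2]
          ring
      _ = 0 := by
          rw [h1, Finset.sum_comm]
          rw [show (∑ l ∈ range K, ∑ j ∈ range (K + t + 1), q l * (v j * a (s + l + j)))
            = ∑ l ∈ range K, q l * ∑ j ∈ range (K + t + 1), v j * a (s + l + j) from
            Finset.sum_congr rfl fun l _ => (Finset.mul_sum _ _ _).symm]
          rw [Finset.sum_eq_zero h2, sub_zero]
  have hzero : ∀ s, s ≤ t → v (K + t - s) = 0 := by
    intro s
    induction s using Nat.strong_induction_on with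
    | _ s ih =>
      intro hs
      have h1 := hrr s hs
      rw [Finset.sum_eq_single (K + t - s)] at h1
      · have e : s + (K + t - s) = i0 := by omega
        rw [e] at h1
        exact (mul_eq_zero.mp h1).resolve_right hi0r
      · intro j hj hjne
        have hj' := mem_range.mp hj
        rcases lt_or_gt_of_ne hjne with hlt | hgt
        · rw [hmin (s + j) (by omega), mul_zero]
        · have h2 := ih (K + t - j) (by omega) (by omega)
          have e : K + t - (K + t - j) = j := by omega
          rw [e] at h2
          rw [h2, zero_mul]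
      · intro hnot
        exact absurd (mem_range.mpr (by omega)) hnot
  have hzK : ∀ j, K ≤ j → v j = 0 := by
    intro j hj
    by_cases hjt : j < K + t + 1
    · have h2 := hzero (K + t - j) (by omega)
      have e : K + t - (K + t - j) = j := by omega
      rwa [e] at h2
    · simp only [hv]
      rw [dif_neg hjt]
  have hsmall : Matrix.mulVec (hank a K) (fun j : Fin K => v j.val) = 0 := by
    funext i
    rw [hank_mulVec]
    have h1 := hrow i.val (by have := i.isLt; omega)
    have e : K + t + 1 = K + (t + 1) := by ring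
    rw [e, Finset.sum_range_add] at h1
    rw [Finset.sum_eq_zero (s := range (t + 1)) (fun j _ => by rw [hzK (K + j) (by omega), zero_mul]),
      add_zero] at h1
    exact h1
  have hvK := Matrix.eq_zero_of_mulVec_eq_zero hK hsmall
  apply hv0
  rw [← hvv]
  funext j
  by_cases hj : j.val < K
  · exact congrFun hvK ⟨j.val, hj⟩
  · exact hzK j.val (by omega)

end Pool.Agent.Lib_helper25.SUN
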